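import Mathlib

/-!
An unordered form of the Cauchy-Binet formula and its consequence for totally nonnegative
matrices.
-/

set_option autoImplicit false

namespace Pool.Agent.H54.TP

open Finset Matrix Equiv

theorem factorial_mul_det_mul {N L : ℕ} (A : Matrix (Fin N) (Fin L) ℝ)
    (C : Matrix (Fin L) (Fin N) ℝ) :
    (Nat.factorial N : ℝ) * (A * C).det =
      ∑ f : Fin N → Fin L, (A.submatrix id f).det * (C.submatrix f id).det := by
  have h1 : (A * C).det = ∑ p : Fin N → Fin L, (A.submatrix id p).det * ∏ i, C (p i) i := by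
    simp only [det_apply', mul_apply, prod_univ_sum, mul_sum, Fintype.piFinset_univ]
    rw [Finset.sum_comm]
    refine Finset.sum_congr rfl fun p _ => ?_
    rw [Finset.sum_mul]
    refine Finset.sum_congr rfl fun σ _ => ?_
    rw [Finset.prod_mul_distrib, ← mul_assoc]
    rfl
  have h2 : ∀ τ : Perm (Fin N), (A * C).det = ∑ p : Fin N → Fin L,
      (A.submatrix id p).det * ((Perm.sign τ : ℤ) * ∏ i, C (p (τ i)) i) := by
    intro τ
    rw [h1]
    refine Fintype.sum_equiv (Equiv.arrowCongr τ (Equiv.refl (Fin L))) _ _ fun p => ?_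
    have e1 : (Equiv.arrowCongr τ (Equiv.refl (Fin L))) p = p ∘ τ.symm := rfl
    rw [e1]
    have e2 : A.submatrix id (p ∘ τ.symm) = (A.submatrix id p).submatrix id τ.symm := rfl
    rw [e2, Matrix.det_permute']
    have e3 : ∏ i, C ((p ∘ τ.symm) (τ i)) i = ∏ i, C (p i) i := by
      refine Finset.prod_congr rfl fun i _ => ?_
      simp
    rw [e3]
    have e4 : (Perm.sign (τ.symm) : ℤ) = Perm.sign τ := by
      rw [← Perm.inv_def, Perm.sign_inv]
    rw [e4]
    have e5 : ((Perm.sign τ : ℤ) : ℝ) * ((Perm.sign τ : ℤ) : ℝ) = 1 := by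
      rw [← Int.cast_mul, ← Units.val_mul, Int.units_mul_self]
      simp
    calc (A.submatrix id p).det * ∏ i, C (p i) i
        = (((Perm.sign τ : ℤ) : ℝ) * ((Perm.sign τ : ℤ) : ℝ)) *
          ((A.submatrix id p).det * ∏ i, C (p i) i) := by rw [e5, one_mul]
      _ = _ := by ring
  have h3 : (Nat.factorial N : ℝ) * (A * C).det = ∑ τ : Perm (Fin N), (A * C).det := by
    rw [Finset.sum_const, Finset.card_univ, Fintype.card_perm, Fintype.card_fin, nsmul_eq_mul]
  rw [h3, Finset.sum_congr rfl (fun τ _ => h2 τ), Finset.sum_comm]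
  refine Finset.sum_congr rfl fun p _ => ?_
  rw [← Finset.mul_sum, det_apply' (C.submatrix p id)]
  rfl

/-- Sorting an injective map. -/
theorem exists_sort {N : ℕ} {α : Type*} [LinearOrder α] (f : Fin N → α)
    (hf : Function.Injective f) :
    ∃ (σ : Perm (Fin N)) (f' : Fin N → α), StrictMono f' ∧ f = f' ∘ σ := by
  refine ⟨(Tuple.sort f)⁻¹, f ∘ Tuple.sort f, ?_, ?_⟩
  · exact (Tuple.monotone_sort f).strictMono_of_injective (hf.comp (Equiv.injective _))
  · funext i
    simp

/-- Totally nonnegative (rectangular) matrices, with increasing index maps. -/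
def MatTN {α β : Type*} [LinearOrder α] [LinearOrder β] (B : α → β → ℝ) : Prop :=
  ∀ (N : ℕ) (f : Fin N → α) (g : Fin N → β), StrictMono f → StrictMono g →
    0 ≤ (Matrix.of fun i j => B (f i) (g j)).det

/-- One term of the double Cauchy-Binet expansion is nonnegative. -/
theorem term_nonneg {N : ℕ} {α β : Type*} [LinearOrder α] [LinearOrder β]
    (E : Fin N → α → ℝ) (B : α → β → ℝ) (F : β → Fin N → ℝ)
    (hE : ∀ f : Fin N → α, StrictMono f → 0 ≤ (Matrix.of fun i j => E i (f j)).det)
    (hB : MatTN B)
    (hF : ∀ g : Fin N → β, StrictMono g → 0 ≤ (Matrix.of fun i j => F (g i) j).det)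
    (f : Fin N → α) (g : Fin N → β) :
    0 ≤ (Matrix.of fun i j => E i (f j)).det *
      ((Matrix.of fun i j => B (f i) (g j)).det * (Matrix.of fun i j => F (g i) j).det) := by
  by_cases hf : Function.Injective f
  · by_cases hg : Function.Injective g
    · obtain ⟨σ, f', hf', rfl⟩ := exists_sort f hf
      obtain ⟨τ, g', hg', rfl⟩ := exists_sort g hg
      have e1 : (Matrix.of fun i j => E i ((f' ∘ σ) j)) =
          (Matrix.of fun i j => E i (f' j)).submatrix id σ := rfl
      have e2 : (Matrix.of fun i j => B ((f' ∘ σ) i) ((g' ∘ τ) j)) =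
          ((Matrix.of fun i j => B (f' i) (g' j)).submatrix σ id).submatrix id τ := rfl
      have e3 : (Matrix.of fun i j => F ((g' ∘ τ) i) j) =
          (Matrix.of fun i j => F (g' i) j).submatrix τ id := rfl
      rw [e1, e2, e3, Matrix.det_permute', Matrix.det_permute', Matrix.det_permute,
        Matrix.det_permute]
      have e5 : ∀ τ : Perm (Fin N), ((Perm.sign τ : ℤ) : ℝ) * ((Perm.sign τ : ℤ) : ℝ) = 1 := by
        intro τ
        rw [← Int.cast_mul, ← Units.val_mul, Int.units_mul_self]
        simp
      have h0 := mul_nonneg (hE f' hf') (mul_nonneg (hB N f' g' hf' hg') (hF g' hg'))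
      have : ((Perm.sign σ : ℤ) : ℝ) * (Matrix.of fun i j => E i (f' j)).det *
          (((Perm.sign τ : ℤ) : ℝ) * (((Perm.sign σ : ℤ) : ℝ) *
            (Matrix.of fun i j => B (f' i) (g' j)).det) *
            (((Perm.sign τ : ℤ) : ℝ) * (Matrix.of fun i j => F (g' i) j).det)) =
          (((Perm.sign σ : ℤ) : ℝ) * ((Perm.sign σ : ℤ) : ℝ)) *
          (((Perm.sign τ : ℤ) : ℝ) * ((Perm.sign τ : ℤ) : ℝ)) *
          ((Matrix.of fun i j => E i (f' j)).det *
            ((Matrix.of fun i j => B (f' i) (g' j)).det *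
              (Matrix.of fun i j => F (g' i) j).det)) := by ring
      rw [this, e5, e5, one_mul, one_mul]
      exact h0
    · have : (Matrix.of fun i j => F (g i) j).det = 0 := by
        rw [Function.Injective] at hg
        push Not at hg
        obtain ⟨i, j, hij, hne⟩ := hg
        exact Matrix.det_zero_of_row_eq hne (by funext k; simp [hij])
      rw [this]
      simp
  · have : (Matrix.of fun i j => E i (f j)).det = 0 := by
      rw [Function.Injective] at hf
      push Not at hf
      obtain ⟨i, j, hij, hne⟩ := hf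
      exact Matrix.det_zero_of_column_eq hne (by intro k; simp [hij])
    rw [this]
    simp

/-- Lower bound for the determinant of a product `E B F` by one term of the expansion. -/
theorem det_mul_mul_ge {N L : ℕ} (E : Fin N → Fin L → ℝ) (B : Fin L → Fin L → ℝ)
    (F : Fin L → Fin N → ℝ)
    (hE : ∀ f : Fin N → Fin L, StrictMono f → 0 ≤ (Matrix.of fun i j => E i (f j)).det)
    (hB : MatTN B)
    (hF : ∀ g : Fin N → Fin L, StrictMono g → 0 ≤ (Matrix.of fun i j => F (g i) j).det)
    (f : Fin N → Fin L) :
    (Matrix.of fun i j => E i (f j)).det *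
      ((Matrix.of fun i j => B (f i) (f j)).det * (Matrix.of fun i j => F (f i) j).det) ≤
    (Nat.factorial N : ℝ) ^ 2 *
      (Matrix.of fun a b => ∑ i, ∑ j, E a i * B i j * F j b).det := by
  have h1 : (Matrix.of fun a b => ∑ i, ∑ j, E a i * B i j * F j b) =
      (Matrix.of E) * ((Matrix.of B) * (Matrix.of F)) := by
    ext a b
    simp only [Matrix.of_apply, Matrix.mul_apply, Finset.mul_sum]
    refine Finset.sum_congr rfl fun i _ => Finset.sum_congr rfl fun j _ => ?_
    ring
  have h2 : (Nat.factorial N : ℝ) ^ 2 *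
      (Matrix.of fun a b => ∑ i, ∑ j, E a i * B i j * F j b).det =
      ∑ f : Fin N → Fin L, ∑ g : Fin N → Fin L, (Matrix.of fun i j => E i (f j)).det *
      ((Matrix.of fun i j => B (f i) (g j)).det * (Matrix.of fun i j => F (g i) j).det) := by
    rw [h1, sq, mul_assoc, factorial_mul_det_mul, Finset.mul_sum]
    refine Finset.sum_congr rfl fun f _ => ?_
    have h3 : ((Matrix.of B) * (Matrix.of F)).submatrix f id =
        ((Matrix.of B).submatrix f id) * (Matrix.of F) := by
      ext a b
      simp [Matrix.mul_apply]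
    rw [h3, mul_left_comm, factorial_mul_det_mul, Finset.mul_sum]
    refine Finset.sum_congr rfl fun g _ => ?_
    rfl
  rw [h2]
  have h3 : (Matrix.of fun i j => E i (f j)).det *
      ((Matrix.of fun i j => B (f i) (f j)).det * (Matrix.of fun i j => F (f i) j).det) ≤
      ∑ g : Fin N → Fin L, (Matrix.of fun i j => E i (f j)).det *
      ((Matrix.of fun i j => B (f i) (g j)).det * (Matrix.of fun i j => F (g i) j).det) :=
    Finset.single_le_sum (f := fun g : Fin N → Fin L => (Matrix.of fun i j => E i (f j)).det *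
      ((Matrix.of fun i j => B (f i) (g j)).det * (Matrix.of fun i j => F (g i) j).det))
      (fun g _ => term_nonneg E B F hE hB hF f g) (Finset.mem_univ f)
  refine h3.trans ?_
  exact Finset.single_le_sum (f := fun f : Fin N → Fin L =>
      ∑ g : Fin N → Fin L, (Matrix.of fun i j => E i (f j)).det *
      ((Matrix.of fun i j => B (f i) (g j)).det * (Matrix.of fun i j => F (g i) j).det))
      (fun f _ => Finset.sum_nonneg fun g _ => term_nonneg E B F hE hB hF f g)
      (Finset.mem_univ f)

end Pool.Agent.H54.TP
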