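import Pool.Agent.H54.TP.Stage

/-!
The convergence estimate for the smoothed kernels.
-/

set_option autoImplicit false

namespace Pool.Agent.H54.TP

open Finset Matrix Filter Topology

/-- The weighted average of the values of `K` at the nodes is close to `K x y`. -/
theorem main_estimate {X Y : Set ℝ} (K : X → Y → ℝ) (ξ : ℕ → X) (η : ℕ → Y) (n : ℕ)
    (c δ ε B : ℝ) (x : X) (y : Y) (hc : 0 < c) (hδ : 0 < δ) (hε : 0 ≤ ε)
    (hB : ∀ i j, i < n → j < n → |K (ξ i) (η j) - K x y| ≤ B)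
    (hnear : ∀ (x' : X) (y' : Y), |(x : ℝ) - x'| < δ → |(y : ℝ) - y'| < δ →
      |K x' y' - K x y| ≤ ε)
    (hx : ∃ i, i < n ∧ |(x : ℝ) - ξ i| < δ / 2) (hy : ∃ j, j < n ∧ |(y : ℝ) - η j| < δ / 2) :
    |(∑ i : Fin n, ∑ j : Fin n, gau c x (ξ i) * K (ξ i) (η j) * gau c y (η j)) /
        (wt c n ξ x * wt c n η y) - K x y| ≤ ε + 2 * (B * n * Real.exp (-(3 / 4 * δ ^ 2 * c))) := by
  obtain ⟨i0, hi0, hi0'⟩ := hx
  obtain ⟨j0, hj0, hj0'⟩ := hy
  have hn : 0 < n := by omega
  have hB0 : 0 ≤ B := (abs_nonneg _).trans (hB i0 j0 hi0 hj0)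
  set W := wt c n ξ x with hWdef
  set W' := wt c n η y with hWdef'
  have hW : 0 < W := wt_pos c hn ξ _
  have hW' : 0 < W' := wt_pos c hn η _
  set e := Real.exp (-(c * δ ^ 2)) with he
  set E := Real.exp (-(3 / 4 * δ ^ 2 * c)) with hE
  have hE0 : 0 < E := Real.exp_pos _
  have he0 : 0 < e := Real.exp_pos _
  -- lower bounds for the weights
  have hlow : ∀ (u v : ℝ), |u - v| < δ / 2 → Real.exp (-(c * δ ^ 2 / 4)) ≤ gau c u v := by
    intro u v huv
    rw [gau, Real.exp_le_exp]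
    have h1 : (u - v) ^ 2 ≤ (δ / 2) ^ 2 := by
      rw [← sq_abs]
      exact pow_le_pow_left₀ (abs_nonneg _) huv.le 2
    nlinarith
  have heE : e = E * Real.exp (-(c * δ ^ 2 / 4)) := by
    rw [he, hE, ← Real.exp_add]
    congr 1
    ring
  have heW : e ≤ E * W := by
    rw [heE]
    exact mul_le_mul_of_nonneg_left ((hlow _ _ hi0').trans (gau_le_wt c ξ x hi0)) hE0.le
  have heW' : e ≤ E * W' := by
    rw [heE]
    exact mul_le_mul_of_nonneg_left ((hlow _ _ hj0').trans (gau_le_wt c η y hj0)) hE0.le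
  have hup : ∀ (u v : ℝ), δ ≤ |u - v| → gau c u v ≤ e := by
    intro u v huv
    rw [gau, he, Real.exp_le_exp]
    have h1 : δ ^ 2 ≤ (u - v) ^ 2 := by
      rw [← sq_abs (u - v)]
      exact pow_le_pow_left₀ hδ.le huv 2
    nlinarith
  -- termwise bound
  have hterm : ∀ i j : Fin n, |gau c x (ξ i) * (K (ξ i) (η j) - K x y) * gau c y (η j)| ≤
      ε * (gau c x (ξ i) * gau c y (η j)) + B * e * gau c y (η j) + B * e * gau c x (ξ i) := by
    intro i j
    have hg := gau_pos c x (ξ i)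
    have hg' := gau_pos c y (η j)
    rw [abs_mul, abs_mul, abs_of_pos hg, abs_of_pos hg']
    have h0 : 0 ≤ ε * (gau c x (ξ i) * gau c y (η j)) := by positivity
    have h1 : 0 ≤ B * e * gau c y (η j) := by positivity
    have h2 : 0 ≤ B * e * gau c x (ξ i) := by positivity
    have h3 : |K (ξ i) (η j) - K x y| ≤ B := hB i j i.2 j.2
    by_cases hxi : |(x : ℝ) - ξ i| < δ
    · by_cases hyj : |(y : ℝ) - η j| < δ
      · have h4 := hnear (ξ i) (η j) hxi hyj
        have h5 : gau c x (ξ i) * |K (ξ i) (η j) - K x y| * gau c y (η j) ≤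
            gau c x (ξ i) * ε * gau c y (η j) := by gcongr
        linarith
      · have h4 := hup _ _ (not_lt.mp hyj)
        have h5 : gau c x (ξ i) * |K (ξ i) (η j) - K x y| * gau c y (η j) ≤
            gau c x (ξ i) * B * e := by gcongr
        linarith
    · have h4 := hup _ _ (not_lt.mp hxi)
      have h5 : gau c x (ξ i) * |K (ξ i) (η j) - K x y| * gau c y (η j) ≤
          e * B * gau c y (η j) := by gcongr
      linarith
  have hsumW : ∑ i : Fin n, gau c x (ξ i) = W := rfl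
  have hsumW' : ∑ j : Fin n, gau c y (η j) = W' := rfl
  have hsum : |∑ i : Fin n, ∑ j : Fin n, gau c x (ξ i) * (K (ξ i) (η j) - K x y) *
      gau c y (η j)| ≤ ε * (W * W') + n * (B * e * W') + n * (B * e * W) := by
    calc |∑ i : Fin n, ∑ j : Fin n, gau c x (ξ i) * (K (ξ i) (η j) - K x y) * gau c y (η j)|
        ≤ ∑ i : Fin n, |∑ j : Fin n, gau c x (ξ i) * (K (ξ i) (η j) - K x y) * gau c y (η j)| :=
          Finset.abs_sum_le_sum_abs _ _
      _ ≤ ∑ i : Fin n, ∑ j : Fin n, |gau c x (ξ i) * (K (ξ i) (η j) - K x y) * gau c y (η j)| :=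
          Finset.sum_le_sum fun i _ => Finset.abs_sum_le_sum_abs _ _
      _ ≤ ∑ i : Fin n, ∑ j : Fin n, (ε * (gau c x (ξ i) * gau c y (η j)) +
            B * e * gau c y (η j) + B * e * gau c x (ξ i)) :=
          Finset.sum_le_sum fun i _ => Finset.sum_le_sum fun j _ => hterm i j
      _ = ε * (W * W') + n * (B * e * W') + n * (B * e * W) := by
          simp only [Finset.sum_add_distrib, ← Finset.mul_sum, ← Finset.sum_mul, hsumW, hsumW',
            Finset.sum_const, Finset.card_univ, Fintype.card_fin, nsmul_eq_mul]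
          ring
  have hid : (∑ i : Fin n, ∑ j : Fin n, gau c x (ξ i) * K (ξ i) (η j) * gau c y (η j)) -
      K x y * (W * W') = ∑ i : Fin n, ∑ j : Fin n, gau c x (ξ i) * (K (ξ i) (η j) - K x y) *
      gau c y (η j) := by
    have h1 : K x y * (W * W') =
        ∑ i : Fin n, ∑ j : Fin n, gau c x (ξ i) * K x y * gau c y (η j) := by
      rw [← hsumW, ← hsumW', Finset.sum_mul_sum, Finset.mul_sum]
      refine Finset.sum_congr rfl fun i _ => ?_
      rw [Finset.mul_sum]
      refine Finset.sum_congr rfl fun j _ => ?_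
      ring
    rw [h1, ← Finset.sum_sub_distrib]
    refine Finset.sum_congr rfl fun i _ => ?_
    rw [← Finset.sum_sub_distrib]
    refine Finset.sum_congr rfl fun j _ => ?_
    ring
  have hWW : 0 < W * W' := mul_pos hW hW'
  have hdiv : (∑ i : Fin n, ∑ j : Fin n, gau c x (ξ i) * K (ξ i) (η j) * gau c y (η j)) /
        (W * W') - K x y = ((∑ i : Fin n, ∑ j : Fin n, gau c x (ξ i) * K (ξ i) (η j) *
          gau c y (η j)) - K x y * (W * W')) / (W * W') := by
    field_simp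
  rw [hdiv, hid, abs_div, abs_of_pos hWW, div_le_iff₀ hWW]
  refine hsum.trans ?_
  have h5 : (n : ℝ) * (B * e * W') ≤ n * (B * (E * W) * W') := by gcongr
  have h6 : (n : ℝ) * (B * e * W) ≤ n * (B * (E * W') * W) := by gcongr
  calc ε * (W * W') + n * (B * e * W') + n * (B * e * W)
      ≤ ε * (W * W') + n * (B * (E * W) * W') + n * (B * (E * W') * W) := by linarith
    _ = (ε + 2 * (B * n * E)) * (W * W') := by ring

/-- The tail term is small. -/
theorem tail_estimate {X Y : Set ℝ} (ξ : ℕ → X) (η : ℕ → Y) (n : ℕ) (hn : 0 < n)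
    (c m : ℝ) (x : X) (y : Y) (hc : 0 < c)
    (hm : ((x : ℝ) - ξ 0) ^ 2 + ((y : ℝ) - η 0) ^ 2 + 1 ≤ m) :
    2 * Real.exp (-(c * m)) / (wt c n ξ x * wt c n η y) ≤ 2 * Real.exp (-c) := by
  have hW : 0 < wt c n ξ x := wt_pos c hn ξ _
  have hW' : 0 < wt c n η y := wt_pos c hn η _
  rw [div_le_iff₀ (mul_pos hW hW')]
  have h1 := gau_le_wt c ξ x hn
  have h2 := gau_le_wt c η y hn
  have h3 : gau c x (ξ 0) * gau c y (η 0) ≤ wt c n ξ x * wt c n η y :=
    mul_le_mul h1 h2 (gau_pos _ _ _).le hW.le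
  have h4 : Real.exp (-(c * m)) ≤ Real.exp (-c) * (gau c x (ξ 0) * gau c y (η 0)) := by
    rw [gau, gau, ← Real.exp_add, ← Real.exp_add, Real.exp_le_exp]
    nlinarith
  calc 2 * Real.exp (-(c * m)) ≤ 2 * (Real.exp (-c) * (gau c x (ξ 0) * gau c y (η 0))) := by
        linarith
    _ ≤ 2 * (Real.exp (-c) * (wt c n ξ x * wt c n η y)) := by
        have := Real.exp_pos (-c)
        gcongr
    _ = 2 * Real.exp (-c) * (wt c n ξ x * wt c n η y) := by ring

end Pool.Agent.H54.TP
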