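import Mathlib

/-!
The matrices `exp (a_i x_j)` with increasing nodes have positive determinant.
-/

set_option autoImplicit false

namespace Pool.Agent.H54.TP

open Finset

theorem exp_sum_zero : ∀ (N : ℕ) (b : Fin N → ℝ), Function.Injective b → ∀ (c : Fin N → ℝ)
    (x : Fin N → ℝ), StrictMono x → (∀ i, ∑ j, c j * Real.exp (b j * x i) = 0) →
    ∀ j, c j = 0 := by
  intro N
  induction N with
  | zero => intro b _ c x _ _ j; exact j.elim0
  | succ N ih =>
    intro b hb c x hx h
    let g : ℝ → ℝ := fun t => ∑ j, c j * Real.exp ((b j - b 0) * t)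
    let g' : ℝ → ℝ := fun t => ∑ j, c j * (Real.exp ((b j - b 0) * t) * (b j - b 0))
    have hg : ∀ t, HasDerivAt g (g' t) t := by
      intro t
      have : ∀ j ∈ (univ : Finset (Fin (N + 1))), HasDerivAt
          (fun t => c j * Real.exp ((b j - b 0) * t))
          (c j * (Real.exp ((b j - b 0) * t) * (b j - b 0))) t := by
        intro j _
        have h1 : HasDerivAt (fun t : ℝ => (b j - b 0) * t) (b j - b 0) t := by
          simpa using (hasDerivAt_id t).const_mul (b j - b 0)
        exact (h1.exp).const_mul (c j)
      have h2 := HasDerivAt.fun_sum this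
      exact h2
    have hgx : ∀ i, g (x i) = 0 := by
      intro i
      have h1 : g (x i) = Real.exp (-(b 0 * x i)) * ∑ j, c j * Real.exp (b j * x i) := by
        simp only [g, Finset.mul_sum]
        refine Finset.sum_congr rfl fun j _ => ?_
        rw [mul_left_comm, ← Real.exp_add]
        congr 2
        ring
      rw [h1, h i, mul_zero]
    have hrolle : ∀ i : Fin N, ∃ y, x i.castSucc < y ∧ y < x i.succ ∧ g' y = 0 := by
      intro i
      have hlt : x i.castSucc < x i.succ := hx (Fin.castSucc_lt_succ)
      obtain ⟨y, hy, hy0⟩ := exists_hasDerivAt_eq_zero hlt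
        (fun t _ => (hg t).continuousAt.continuousWithinAt)
        (by rw [hgx, hgx]) (fun t _ => hg t)
      exact ⟨y, hy.1, hy.2, hy0⟩
    choose y hy1 hy2 hy3 using hrolle
    have hy : StrictMono y := by
      intro i j hij
      have h1 : i.succ ≤ j.castSucc := by
        rw [Fin.le_def]
        simp only [Fin.val_succ, Fin.val_castSucc]
        exact hij
      have h2 : x i.succ ≤ x j.castSucc := hx.monotone h1
      linarith [hy2 i, hy1 j]
    have hb' : Function.Injective (fun j : Fin N => b j.succ - b 0) := by
      intro i j hij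
      have : b i.succ = b j.succ := by
        have := hij
        simp only at this
        linarith
      exact Fin.succ_injective _ (hb this)
    have hc' := ih (fun j : Fin N => b j.succ - b 0) hb'
      (fun j : Fin N => c j.succ * (b j.succ - b 0)) y hy (by
        intro i
        have h1 := hy3 i
        simp only [g', Fin.sum_univ_succ, sub_self, mul_zero, zero_add] at h1
        rw [← h1]
        refine Finset.sum_congr rfl fun j _ => ?_
        ring)
    have hcs : ∀ j : Fin N, c j.succ = 0 := by
      intro j
      have h1 := hc' j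
      rcases mul_eq_zero.mp h1 with h2 | h2
      · exact h2
      · exfalso
        have : b j.succ = b 0 := by linarith
        exact (Fin.succ_ne_zero j) (hb this)
    have hc0 : c 0 = 0 := by
      have h1 := h 0
      rw [Fin.sum_univ_succ] at h1
      simp only [hcs, zero_mul, Finset.sum_const_zero, add_zero] at h1
      rcases mul_eq_zero.mp h1 with h2 | h2
      · exact h2
      · exact absurd h2 (Real.exp_pos _).ne'
    intro j
    refine Fin.cases hc0 hcs j

/-- The matrix `exp (a_i x_j)`. -/
noncomputable def expMat {N : ℕ} (a x : Fin N → ℝ) : Matrix (Fin N) (Fin N) ℝ :=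
  Matrix.of fun i j => Real.exp (a i * x j)

theorem expMat_det_ne_zero {N : ℕ} (a x : Fin N → ℝ) (ha : StrictMono a) (hx : StrictMono x) :
    (expMat a x).det ≠ 0 := by
  intro h
  obtain ⟨v, hv, hv0⟩ := Matrix.exists_vecMul_eq_zero_iff.mpr h
  apply hv
  funext i
  refine exp_sum_zero N a ha.injective v x hx (fun j => ?_) i
  have := congrFun hv0 j
  simpa [Matrix.vecMul, dotProduct, expMat] using this

theorem expMat_det_pos {N : ℕ} (a x : Fin N → ℝ) (ha : StrictMono a) (hx : StrictMono x) :
    0 < (expMat a x).det := by
  let A : ℝ → Fin N → ℝ := fun t i => (1 - t) * a i + t * (i : ℝ)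
  have hA : ∀ t ∈ Set.Icc (0 : ℝ) 1, StrictMono (A t) := by
    intro t ht i j hij
    have h1 : a i < a j := ha hij
    have h2 : ((i : ℕ) : ℝ) < ((j : ℕ) : ℝ) := by exact_mod_cast hij
    simp only [A]
    rcases eq_or_lt_of_le ht.1 with h0 | h0
    · subst h0; simpa using h1
    · have h3 : t * ((i : ℕ) : ℝ) < t * ((j : ℕ) : ℝ) := mul_lt_mul_of_pos_left h2 h0
      have h4 : (1 - t) * a i ≤ (1 - t) * a j :=
        mul_le_mul_of_nonneg_left h1.le (by linarith [ht.2])
      linarith
  have hcont : Continuous (fun t => (expMat (A t) x).det) := by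
    apply Continuous.matrix_det
    apply continuous_matrix
    intro i j
    simp only [expMat, Matrix.of_apply, A]
    fun_prop
  have h1 : 0 < (expMat (A 1) x).det := by
    have : expMat (A 1) x = (Matrix.vandermonde (fun j => Real.exp (x j))).transpose := by
      ext i j
      simp only [expMat, Matrix.of_apply, A, Matrix.transpose_apply, Matrix.vandermonde_apply]
      rw [← Real.exp_nat_mul]
      congr 1
      ring
    rw [this, Matrix.det_transpose, Matrix.det_vandermonde]
    refine Finset.prod_pos fun i _ => Finset.prod_pos fun j hj => ?_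
    rw [sub_pos]
    exact Real.exp_lt_exp.mpr (hx (Finset.mem_Ioi.mp hj))
  have h0 : expMat (A 0) x = expMat a x := by
    congr 1
    funext i
    simp [A]
  rw [← h0]
  by_contra hneg
  push Not at hneg
  have hivt := intermediate_value_Icc (zero_le_one (α := ℝ)) hcont.continuousOn
  have : (0 : ℝ) ∈ Set.Icc (expMat (A 0) x).det (expMat (A 1) x).det := ⟨hneg, h1.le⟩
  obtain ⟨t, ht, ht0⟩ := hivt this
  exact expMat_det_ne_zero (A t) x (hA t ht) hx ht0

end Pool.Agent.H54.TP
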