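import Pool.Agent.H54.TP.TailMat
import Pool.Agent.H54.TP.ExpDet

/-!
The Gaussian smoothing of `M ⊕ diag(β)` is totally positive of all orders.
-/

set_option autoImplicit false

namespace Pool.Agent.H54.TP

open Finset Matrix Filter Topology

/-- Gaussian kernel. -/
noncomputable def gau (c x u : ℝ) : ℝ := Real.exp (-(c * (x - u) ^ 2))

theorem gau_pos (c x u : ℝ) : 0 < gau c x u := Real.exp_pos _

theorem gau_le_one {c : ℝ} (hc : 0 ≤ c) (x u : ℝ) : gau c x u ≤ 1 := by
  rw [gau, Real.exp_le_one_iff]
  have : 0 ≤ c * (x - u) ^ 2 := mul_nonneg hc (sq_nonneg _)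
  linarith

theorem gau_det_pos {N : ℕ} {c : ℝ} (hc : 0 < c) (x a : Fin N → ℝ) (hx : StrictMono x)
    (ha : StrictMono a) : 0 < (Matrix.of fun i j => gau c (x i) (a j)).det := by
  have h1 : (Matrix.of fun i j => gau c (x i) (a j)) =
      Matrix.of fun i j => Real.exp (-(c * (x i) ^ 2)) *
        (Matrix.of fun i j => Real.exp (-(c * (a j) ^ 2)) *
          (expMat (fun j => 2 * c * a j) x).transpose i j) i j := by
    ext i j
    simp only [Matrix.of_apply, gau, Matrix.transpose_apply, expMat]
    rw [← Real.exp_add, ← Real.exp_add]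
    congr 1
    ring
  rw [h1, Matrix.det_mul_column, Matrix.det_mul_row, Matrix.det_transpose]
  refine mul_pos (Finset.prod_pos fun i _ => Real.exp_pos _)
    (mul_pos (Finset.prod_pos fun i _ => Real.exp_pos _) ?_)
  refine expMat_det_pos _ _ (fun i j hij => ?_) hx
  have := ha hij
  nlinarith

/-- The kernel `∑_{i,j<n} g(x,a_i) M_ij g(y,b_j) + ∑_{k≥n} β_k g(x,a_k) g(y,b_k)`. -/
noncomputable def smooth (n : ℕ) (M : Fin n → Fin n → ℝ) (β : ℕ → ℝ) (c : ℝ) (a b : ℕ → ℝ)
    (x y : ℝ) : ℝ :=
  (∑ i ∈ range n, ∑ j ∈ range n, gau c x (a i) * tailMat n M β i j * gau c y (b j)) +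
    ∑' k, (if n ≤ k then β k else 0) * (gau c x (a k) * gau c y (b k))

theorem sum_range_tailMat (n : ℕ) (M : Fin n → Fin n → ℝ) (β : ℕ → ℝ) (c : ℝ) (a b : ℕ → ℝ)
    (x y : ℝ) (L : ℕ) (hL : n ≤ L) :
    ∑ i ∈ range L, ∑ j ∈ range L, gau c x (a i) * tailMat n M β i j * gau c y (b j) =
    (∑ i ∈ range n, ∑ j ∈ range n, gau c x (a i) * tailMat n M β i j * gau c y (b j)) +
    ∑ k ∈ range L, (if n ≤ k then β k else 0) * (gau c x (a k) * gau c y (b k)) := by
  induction L, hL using Nat.le_induction with
  | base =>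
    have : ∑ k ∈ range n, (if n ≤ k then β k else 0) * (gau c x (a k) * gau c y (b k)) = 0 := by
      refine Finset.sum_eq_zero fun k hk => ?_
      have : ¬ n ≤ k := by
        have := Finset.mem_range.mp hk
        omega
      simp [this]
    rw [this, add_zero]
  | succ L hL ih =>
    rw [Finset.sum_range_succ, Finset.sum_range_succ (n := L)
      (f := fun k => (if n ≤ k then β k else 0) * (gau c x (a k) * gau c y (b k)))]
    have h1 : ∀ i ∈ range L, ∑ j ∈ range (L + 1),
        gau c x (a i) * tailMat n M β i j * gau c y (b j) =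
        ∑ j ∈ range L, gau c x (a i) * tailMat n M β i j * gau c y (b j) := by
      intro i hi
      rw [Finset.sum_range_succ, tailMat_ne (Or.inr hL) (by
        have := Finset.mem_range.mp hi
        omega)]
      ring
    have h2 : ∑ j ∈ range (L + 1), gau c x (a L) * tailMat n M β L j * gau c y (b j) =
        gau c x (a L) * β L * gau c y (b L) := by
      rw [Finset.sum_range_succ, tailMat_diag hL]
      have : ∑ j ∈ range L, gau c x (a L) * tailMat n M β L j * gau c y (b j) = 0 := by
        refine Finset.sum_eq_zero fun j hj => ?_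
        rw [tailMat_ne (Or.inl hL) (by
          have := Finset.mem_range.mp hj
          omega)]
        ring
      rw [this, zero_add]
    rw [Finset.sum_congr rfl h1, h2, ih, if_pos hL]
    ring

theorem smooth_det_pos (n : ℕ) (M : Fin n → Fin n → ℝ) (hM : MatTN M) (β : ℕ → ℝ)
    (hβ : ∀ i, 0 < β i) (hβs : Summable β) {c : ℝ} (hc : 0 < c) (a b : ℕ → ℝ)
    (ha : StrictMono a) (hb : StrictMono b) {N : ℕ} (x y : Fin N → ℝ) (hx : StrictMono x)
    (hy : StrictMono y) : 0 < (Matrix.of fun i j => smooth n M β c a b (x i) (y j)).det := by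
  let S : ℕ → Matrix (Fin N) (Fin N) ℝ := fun L => Matrix.of fun i j =>
    ∑ k : Fin L, ∑ l : Fin L, gau c (x i) (a k) * tailMat n M β k l * gau c (y j) (b l)
  let c0 : ℝ := (Matrix.of fun i j : Fin N => gau c (x i) (a (n + j))).det *
    ((∏ i : Fin N, β (n + i)) * (Matrix.of fun i j : Fin N => gau c (y j) (b (n + i))).det)
  have hfpos : ∀ (u : Fin N → ℝ), StrictMono u → 0 < (Matrix.of fun i j => gau c (y j) (u i)).det := by
    intro u hu
    have h1 := gau_det_pos hc y u hy hu
    rw [← Matrix.det_transpose] at h1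
    exact h1
  have hc0 : 0 < c0 := by
    refine mul_pos (gau_det_pos hc x _ hx (fun i j hij => ha ?_)) (mul_pos
      (Finset.prod_pos fun i _ => hβ _) (hfpos _ (fun i j hij => hb ?_)))
    · have : (i : ℕ) < j := hij
      omega
    · have : (i : ℕ) < j := hij
      omega
  have hS : ∀ L, n + N ≤ L → c0 ≤ (Nat.factorial N : ℝ) ^ 2 * (S L).det := by
    intro L hL
    let f : Fin N → Fin L := fun i => ⟨n + i, by omega⟩
    have h1 := det_mul_mul_ge (fun i k => gau c (x i) (a k))
      (fun k l : Fin L => tailMat n M β k l) (fun l j => gau c (y j) (b l))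
      (fun g hg => (gau_det_pos hc x _ hx (fun i j hij => ha (hg hij))).le)
      (fun K g h hg hh => tailMat_TN n M β hM (fun i => (hβ i).le) K (fun i => (g i : ℕ))
        (fun i => (h i : ℕ)) (fun i j hij => hg hij) (fun i j hij => hh hij))
      (fun g hg => (hfpos _ (fun i j hij => hb (hg hij))).le) f
    have h2 : (Matrix.of fun i j => tailMat n M β (f i) (f j)) =
        Matrix.diagonal (fun i : Fin N => β (n + i)) := by
      ext i j
      by_cases hij : i = j
      · subst hij
        simp only [Matrix.of_apply, Matrix.diagonal_apply_eq, f]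
        exact tailMat_diag (Nat.le_add_right _ _)
      · rw [Matrix.diagonal_apply_ne _ hij]
        simp only [Matrix.of_apply, f]
        refine tailMat_ne (Or.inl (Nat.le_add_right _ _)) ?_
        intro h
        apply hij
        apply Fin.ext
        omega
    rw [h2, Matrix.det_diagonal] at h1
    exact h1
  have hlim : Tendsto (fun L => (Nat.factorial N : ℝ) ^ 2 * (S L).det) atTop
      (𝓝 ((Nat.factorial N : ℝ) ^ 2 *
        (Matrix.of fun i j => smooth n M β c a b (x i) (y j)).det)) := by
    refine Tendsto.const_mul _ ?_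
    have hdet : Continuous (fun A : Matrix (Fin N) (Fin N) ℝ => A.det) :=
      continuous_id.matrix_det
    refine (hdet.tendsto _).comp ?_
    refine tendsto_pi_nhds.mpr fun i => ?_
    refine tendsto_pi_nhds.mpr fun j => ?_
    have hsum : Summable (fun k => (if n ≤ k then β k else 0) *
        (gau c (x i) (a k) * gau c (y j) (b k))) := by
      refine Summable.of_nonneg_of_le (fun k => ?_) (fun k => ?_) hβs
      · refine mul_nonneg ?_ (mul_pos (gau_pos _ _ _) (gau_pos _ _ _)).le
        split_ifs
        · exact (hβ k).le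
        · exact le_rfl
      · have h1 : gau c (x i) (a k) * gau c (y j) (b k) ≤ 1 :=
          mul_le_one₀ (gau_le_one hc.le _ _) (gau_pos _ _ _).le (gau_le_one hc.le _ _)
        have h2 : 0 ≤ gau c (x i) (a k) * gau c (y j) (b k) :=
          (mul_pos (gau_pos _ _ _) (gau_pos _ _ _)).le
        split_ifs
        · calc β k * (gau c (x i) (a k) * gau c (y j) (b k)) ≤ β k * 1 :=
              mul_le_mul_of_nonneg_left h1 (hβ k).le
            _ = β k := mul_one _
        · rw [zero_mul]
          exact (hβ k).le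
    have h1 := (hsum.hasSum.tendsto_sum_nat).const_add
      (∑ i' ∈ range n, ∑ j' ∈ range n, gau c (x i) (a i') * tailMat n M β i' j' *
        gau c (y j) (b j'))
    refine h1.congr' ?_
    filter_upwards [eventually_ge_atTop n] with L hL
    rw [← sum_range_tailMat n M β c a b (x i) (y j) L hL]
    simp only [S, Matrix.of_apply]
    rw [Finset.sum_range]
    refine Finset.sum_congr rfl fun k _ => ?_
    rw [Finset.sum_range]
  have h3 : c0 ≤ (Nat.factorial N : ℝ) ^ 2 *
      (Matrix.of fun i j => smooth n M β c a b (x i) (y j)).det := by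
    refine ge_of_tendsto hlim ?_
    filter_upwards [eventually_ge_atTop (n + N)] with L hL
    exact hS L hL
  have h4 : (0 : ℝ) < (Nat.factorial N : ℝ) ^ 2 := by positivity
  by_contra hneg
  push Not at hneg
  have := mul_nonpos_of_nonneg_of_nonpos h4.le hneg
  linarith

end Pool.Agent.H54.TP
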