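import Pool.Agent.H54.TP.Positive

/-!
Totally nonnegative / totally positive kernels on subsets of the line, and the construction of
one approximating totally positive kernel.
-/

set_option autoImplicit false

namespace Pool.Agent.H54.TP

open Finset Matrix Filter Topology

/-- The kernel `K : X × Y → ℝ` is totally nonnegative (TN). -/
def IsTN {X Y : Set ℝ} (K : X → Y → ℝ) : Prop :=
  ∀ (n : ℕ) (x : Fin n → X) (y : Fin n → Y), StrictMono x → StrictMono y →
    0 ≤ (Matrix.of fun i j => K (x i) (y j)).det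

/-- The kernel `K : X × Y → ℝ` is totally positive (TP), of all orders. -/
def IsTP {X Y : Set ℝ} (K : X → Y → ℝ) : Prop :=
  ∀ (n : ℕ) (x : Fin n → X) (y : Fin n → Y), StrictMono x → StrictMono y →
    0 < (Matrix.of fun i j => K (x i) (y j)).det

/-- Nodes: a strictly increasing sequence whose first `n` terms are the sorted values of `ξ`. -/
theorem exists_nodes {X : Set ℝ} (ξ : ℕ → X) (hξ : Function.Injective ξ) (n : ℕ) :
    ∃ (σ : Equiv.Perm (Fin n)) (a : ℕ → ℝ), StrictMono a ∧
      (StrictMono fun i : Fin n => ξ (σ i)) ∧ ∀ i : Fin n, a i = ξ (σ i) := by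
  obtain ⟨σ, hσ⟩ : ∃ σ : Equiv.Perm (Fin n), StrictMono fun i : Fin n => ξ (σ i) := by
    refine ⟨Tuple.sort (fun i : Fin n => ξ i), ?_⟩
    refine (Tuple.monotone_sort (fun i : Fin n => ξ i)).strictMono_of_injective ?_
    intro i j hij
    have h1 := hξ hij
    exact (Tuple.sort (fun i : Fin n => ξ i)).injective (Fin.ext h1)
  let R : ℝ := ∑ i : Fin n, |(ξ (σ i) : ℝ)|
  let a : ℕ → ℝ := fun i => if h : i < n then (ξ (σ ⟨i, h⟩) : ℝ) else R + (i + 1)
  have hR : ∀ i : Fin n, (ξ (σ i) : ℝ) ≤ R := by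
    intro i
    exact (le_abs_self _).trans (Finset.single_le_sum (f := fun i : Fin n => |(ξ (σ i) : ℝ)|)
      (fun i _ => abs_nonneg _) (Finset.mem_univ i))
  refine ⟨σ, a, strictMono_nat_of_lt_succ fun i => ?_, hσ, fun i => ?_⟩
  · by_cases h1 : i + 1 < n
    · have h2 : i < n := by omega
      simp only [a, h1, h2, dif_pos]
      exact hσ (Fin.mk_lt_mk.mpr (Nat.lt_succ_self i))
    · by_cases h2 : i < n
      · simp only [a, h1, h2, dif_pos, dif_neg, not_false_eq_true]
        have := hR ⟨i, h2⟩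
        push_cast
        have h3 : (0 : ℝ) ≤ (i : ℝ) := Nat.cast_nonneg i
        linarith
      · simp only [a, h1, h2, dif_neg, not_false_eq_true]
        push_cast
        linarith
  · simp [a]

/-- Total weight of the first `n` nodes at `x`. -/
noncomputable def wt {X : Set ℝ} (c : ℝ) (n : ℕ) (ξ : ℕ → X) (x : ℝ) : ℝ :=
  ∑ i : Fin n, gau c x (ξ i)

theorem wt_pos {X : Set ℝ} (c : ℝ) {n : ℕ} (hn : 0 < n) (ξ : ℕ → X) (x : ℝ) :
    0 < wt c n ξ x := by
  have : Nonempty (Fin n) := ⟨⟨0, hn⟩⟩
  exact Finset.sum_pos (fun i _ => gau_pos _ _ _) Finset.univ_nonempty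

theorem gau_le_wt {X : Set ℝ} (c : ℝ) {n : ℕ} (ξ : ℕ → X) (x : ℝ) {i : ℕ} (hi : i < n) :
    gau c x (ξ i) ≤ wt c n ξ x :=
  Finset.single_le_sum (f := fun i : Fin n => gau c x (ξ i)) (fun i _ => (gau_pos _ _ _).le)
    (Finset.mem_univ (⟨i, hi⟩ : Fin n))

/-- One stage of the approximation. -/
theorem exists_stage {X Y : Set ℝ} (K : X → Y → ℝ) (hK : IsTN K) (ξ : ℕ → X)
    (hξ : Function.Injective ξ) (η : ℕ → Y) (hη : Function.Injective η) (n : ℕ) (hn : 0 < n)
    (c d : ℝ) (hc : 0 < c) (hd : 0 < d) :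
    ∃ Km : X → Y → ℝ, IsTP Km ∧ ∀ (x : X) (y : Y),
      |Km x y - (∑ i : Fin n, ∑ j : Fin n, gau c x (ξ i) * K (ξ i) (η j) * gau c y (η j)) /
        (wt c n ξ x * wt c n η y)| ≤ 2 * d / (wt c n ξ x * wt c n η y) := by
  obtain ⟨σ, a, ha, hσ, haσ⟩ := exists_nodes ξ hξ n
  obtain ⟨τ, b, hb, hτ, hbτ⟩ := exists_nodes η hη n
  let M : Fin n → Fin n → ℝ := fun i j => K (ξ (σ i)) (η (τ j))
  have hM : MatTN M := by
    intro N f g hf hg
    exact hK N (fun i => ξ (σ (f i))) (fun j => η (τ (g j))) (fun i j hij => hσ (hf hij))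
      (fun i j hij => hτ (hg hij))
  let β : ℕ → ℝ := fun k => d * (1 / 2) ^ k
  have hβ : ∀ k, 0 < β k := fun k => by positivity
  have hβs : Summable β := summable_geometric_two.mul_left d
  have hβsum : ∑' k, β k = 2 * d := by
    rw [tsum_mul_left, tsum_geometric_two]
    ring
  refine ⟨fun x y => smooth n M β c a b x y / (wt c n ξ x * wt c n η y), ?_, ?_⟩
  · intro N x y hx hy
    have h1 := smooth_det_pos n M hM β hβ hβs hc a b ha hb (fun i => (x i : ℝ))
      (fun i => (y i : ℝ)) hx hy
    have h2 : (Matrix.of fun i j => smooth n M β c a b (x i) (y j) /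
        (wt c n ξ (x i) * wt c n η (y j))) =
        Matrix.of fun i j => (wt c n ξ (x i))⁻¹ *
          (Matrix.of fun i j => (wt c n η (y j))⁻¹ *
            (Matrix.of fun i j => smooth n M β c a b (x i) (y j)) i j) i j := by
      ext i j
      simp only [Matrix.of_apply, div_eq_mul_inv, mul_inv]
      ring
    rw [h2, Matrix.det_mul_column, Matrix.det_mul_row]
    exact mul_pos (Finset.prod_pos fun i _ => inv_pos.mpr (wt_pos c hn ξ _))
      (mul_pos (Finset.prod_pos fun i _ => inv_pos.mpr (wt_pos c hn η _)) h1)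
  · intro x y
    have hmain : ∑ i ∈ range n, ∑ j ∈ range n,
        gau c x (a i) * tailMat n M β i j * gau c y (b j) =
        ∑ i : Fin n, ∑ j : Fin n, gau c x (ξ i) * K (ξ i) (η j) * gau c y (η j) := by
      rw [Finset.sum_range]
      rw [← Equiv.sum_comp σ (fun i : Fin n => ∑ j : Fin n,
        gau c x (ξ i) * K (ξ i) (η j) * gau c y (η j))]
      refine Finset.sum_congr rfl fun i _ => ?_
      rw [Finset.sum_range]
      rw [← Equiv.sum_comp τ (fun j : Fin n =>
        gau c x (ξ (σ i)) * K (ξ (σ i)) (η j) * gau c y (η j))]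
      refine Finset.sum_congr rfl fun j _ => ?_
      rw [tailMat_lt i.2 j.2, haσ, hbτ]
    have hW : 0 < wt c n ξ x * wt c n η y := mul_pos (wt_pos c hn ξ _) (wt_pos c hn η _)
    have htail0 : ∀ k, 0 ≤ (if n ≤ k then β k else 0) * (gau c x (a k) * gau c y (b k)) := by
      intro k
      refine mul_nonneg ?_ (mul_pos (gau_pos _ _ _) (gau_pos _ _ _)).le
      split_ifs
      · exact (hβ k).le
      · exact le_rfl
    have htail1 : ∀ k, (if n ≤ k then β k else 0) * (gau c x (a k) * gau c y (b k)) ≤ β k := by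
      intro k
      have h1 : gau c x (a k) * gau c y (b k) ≤ 1 :=
        mul_le_one₀ (gau_le_one hc.le _ _) (gau_pos _ _ _).le (gau_le_one hc.le _ _)
      have h2 : 0 ≤ gau c x (a k) * gau c y (b k) :=
        (mul_pos (gau_pos _ _ _) (gau_pos _ _ _)).le
      split_ifs
      · calc β k * (gau c x (a k) * gau c y (b k)) ≤ β k * 1 :=
            mul_le_mul_of_nonneg_left h1 (hβ k).le
          _ = β k := mul_one _
      · rw [zero_mul]
        exact (hβ k).le
    have htail2 : 0 ≤ ∑' k, (if n ≤ k then β k else 0) * (gau c x (a k) * gau c y (b k)) :=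
      tsum_nonneg htail0
    have htail3 : ∑' k, (if n ≤ k then β k else 0) * (gau c x (a k) * gau c y (b k)) ≤ 2 * d := by
      rw [← hβsum]
      exact Summable.tsum_le_tsum htail1 (Summable.of_nonneg_of_le htail0 htail1 hβs) hβs
    simp only [smooth]
    rw [hmain, ← sub_div, add_sub_cancel_left, abs_div, abs_of_pos hW, abs_of_nonneg htail2]
    exact div_le_div_of_nonneg_right htail3 hW.le

/-- An infinite subset of the line has an injective dense sequence. -/
theorem exists_dense_injective {X : Set ℝ} (hX : X.Infinite) :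
    ∃ ξ : ℕ → X, Function.Injective ξ ∧ DenseRange ξ := by
  have : Infinite X := hX.to_subtype
  obtain ⟨D, hDc, hD⟩ := TopologicalSpace.exists_countable_dense X
  have hDinf : D.Infinite := by
    intro hfin
    have h1 : closure D = D := hfin.isClosed.closure_eq
    rw [hD.closure_eq] at h1
    exact (Set.infinite_univ (α := X)) (h1 ▸ hfin)
  have : Countable D := hDc.to_subtype
  have : Infinite D := hDinf.to_subtype
  obtain ⟨e⟩ := nonempty_equiv_of_countable (α := ℕ) (β := D)
  refine ⟨fun n => (e n : X), fun i j hij => e.injective (Subtype.ext hij), ?_⟩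
  have : Set.range (fun n => ((e n : D) : X)) = D := by
    ext z
    constructor
    · rintro ⟨n, rfl⟩
      exact (e n).2
    · intro hz
      obtain ⟨n, hn⟩ := e.surjective ⟨z, hz⟩
      exact ⟨n, congrArg Subtype.val hn⟩
  rw [DenseRange, this]
  exact hD

end Pool.Agent.H54.TP
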