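import Pool.Agent.H54.TP.CauchyBinet

/-!
The block matrix `M ⊕ diag(β_n, β_{n+1}, ...)` is totally nonnegative when `M` is.
-/

set_option autoImplicit false

namespace Pool.Agent.H54.TP

open Finset Matrix

/-- `M ⊕ diag(β_n, β_{n+1}, ...)`. -/
def tailMat (n : ℕ) (M : Fin n → Fin n → ℝ) (β : ℕ → ℝ) : ℕ → ℕ → ℝ := fun i j =>
  if h : i < n ∧ j < n then M ⟨i, h.1⟩ ⟨j, h.2⟩ else if i = j then β i else 0

theorem tailMat_lt {n : ℕ} {M : Fin n → Fin n → ℝ} {β : ℕ → ℝ} {i j : ℕ} (hi : i < n)
    (hj : j < n) : tailMat n M β i j = M ⟨i, hi⟩ ⟨j, hj⟩ := by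
  simp [tailMat, hi, hj]

theorem tailMat_ne {n : ℕ} {M : Fin n → Fin n → ℝ} {β : ℕ → ℝ} {i j : ℕ} (h : n ≤ i ∨ n ≤ j)
    (hij : i ≠ j) : tailMat n M β i j = 0 := by
  have : ¬ (i < n ∧ j < n) := by omega
  simp [tailMat, this, hij]

theorem tailMat_diag {n : ℕ} {M : Fin n → Fin n → ℝ} {β : ℕ → ℝ} {i : ℕ} (h : n ≤ i) :
    tailMat n M β i i = β i := by
  have h1 : ¬ (i < n ∧ i < n) := by omega
  rw [tailMat, dif_neg h1, if_pos rfl]

theorem tailMat_TN (n : ℕ) (M : Fin n → Fin n → ℝ) (β : ℕ → ℝ) (hM : MatTN M)
    (hβ : ∀ i, 0 ≤ β i) : MatTN (tailMat n M β) := by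
  intro N
  induction N with
  | zero => intro f g _ _; simp
  | succ N ih =>
    intro f g hf hg
    have hfl : ∀ i, f i ≤ f (Fin.last N) := fun i => hf.monotone (Fin.le_last i)
    have hgl : ∀ i, g i ≤ g (Fin.last N) := fun i => hg.monotone (Fin.le_last i)
    by_cases hp : f (Fin.last N) < n
    · by_cases hq : g (Fin.last N) < n
      · -- a minor of `M`
        have h1 := hM (N + 1) (fun i => ⟨f i, (hfl i).trans_lt hp⟩)
          (fun i => ⟨g i, (hgl i).trans_lt hq⟩) (fun i j hij => hf hij) (fun i j hij => hg hij)
        convert h1 using 3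
        funext i j
        exact tailMat_lt _ _
      · -- zero column
        push Not at hq
        refine le_of_eq (Matrix.det_eq_zero_of_column_eq_zero (Fin.last N) fun i => ?_).symm
        refine tailMat_ne (Or.inr hq) ?_
        have := hfl i
        omega
    · push Not at hp
      rcases lt_trichotomy (f (Fin.last N)) (g (Fin.last N)) with hlt | heq | hgt
      · refine le_of_eq (Matrix.det_eq_zero_of_column_eq_zero (Fin.last N) fun i => ?_).symm
        refine tailMat_ne (Or.inr (by omega)) ?_
        have := hfl i
        omega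
      · rw [Matrix.det_succ_row _ (Fin.last N), Finset.sum_eq_single (Fin.last N)]
        · have h1 := ih (fun i => f i.castSucc) (fun i => g i.castSucc)
            (hf.comp Fin.strictMono_castSucc) (hg.comp Fin.strictMono_castSucc)
          have h2 : (-1 : ℝ) ^ ((Fin.last N : ℕ) + (Fin.last N : ℕ)) = 1 := by
            rw [← two_mul, pow_mul]
            simp
          rw [h2, one_mul]
          refine mul_nonneg ?_ ?_
          · simp only [Matrix.of_apply]
            rw [← heq, tailMat_diag hp]
            exact hβ _
          · have h3 : (Matrix.of fun i j => tailMat n M β (f i) (g j)).submatrix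
                (Fin.last N).succAbove (Fin.last N).succAbove =
                Matrix.of fun i j => tailMat n M β (f i.castSucc) (g j.castSucc) := by
              ext i j
              simp only [Matrix.submatrix_apply, Matrix.of_apply, Fin.succAbove_last]
            rw [h3]
            exact h1
        · intro j _ hj
          have h1 : g j < g (Fin.last N) := hg (lt_of_le_of_ne (Fin.le_last j) hj)
          have h2 : tailMat n M β (f (Fin.last N)) (g j) = 0 :=
            tailMat_ne (Or.inl hp) (by omega)
          simp only [Matrix.of_apply, h2]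
          simp
        · intro h
          exact absurd (Finset.mem_univ _) h
      · refine le_of_eq (Matrix.det_eq_zero_of_row_eq_zero (Fin.last N) fun j => ?_).symm
        refine tailMat_ne (Or.inl hp) ?_
        have := hgl j
        omega

end Pool.Agent.H54.TP
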